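import Pool.Agent.TH315.TWH.Test

/-!
No complex structure.
-/

set_option autoImplicit false

open scoped ENNReal Classical

namespace Pool.Agent.TH315.TWH

lemma flat_ee_LL (s : Finset P0.Γ) : ‖∑ β ∈ s, ee P0 β‖ ≤ Real.sqrt s.card * LL s.card := by
  rcases s.eq_empty_or_nonempty with rfl | hne
  · simp
  refine (flat_ee P0 s).trans ?_
  exact le_mul_of_one_le_right (Real.sqrt_nonneg _) (LL_ge _ hne.card_pos)

lemma flat_ff_LL (s : Finset P0.Γ) {σ : ℝ} (hσ : 0 ≤ σ) (hs : ∀ β ∈ s, rr β ≤ σ)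
    (h1 : 1 ≤ s.card) :
    ‖∑ β ∈ s, ff P0 β‖ ≤ Real.sqrt s.card * (LL s.card) ^ σ := by
  have hL := LL_ge _ h1
  apply flat_ff P0 s (Real.one_le_rpow hL hσ)
  intro β hβ
  rw [phi_eq, abs_log_inv_sqrt _ h1]
  have h2 : 1 + (LL s.card - 1) = LL s.card := by ring
  rw [h2]
  have h3 : (LL s.card) ^ (rr β) ≤ (LL s.card) ^ σ :=
    Real.rpow_le_rpow_of_exponent_le hL (hs β hβ)
  have h4 : 1 ≤ (LL s.card) ^ (rr β) := Real.one_le_rpow hL (by have := rr_ge β; linarith)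
  rw [abs_of_nonneg (by linarith)]
  linarith

lemma flat_ff_LL1 (s : Finset P0.Γ) : ‖∑ β ∈ s, ff P0 β‖ ≤ Real.sqrt s.card * LL s.card := by
  rcases s.eq_empty_or_nonempty with rfl | hne
  · simp
  have := flat_ff_LL s (σ := 1) (by norm_num) (fun β _ => rr_le β) hne.card_pos
  rwa [Real.rpow_one] at this

/-- First exceptional set. -/
lemma claim1 (T : XX P0 →L[ℝ] XX P0) : {α | ∃ β, eta P0 α (T (ee P0 β)) ≠ 0}.Countable := by
  have h1 : {α | ∃ β, eta P0 α (T (ee P0 β)) ≠ 0} ⊆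
      ⋃ m : ℕ, {α | ∃ β, 1 / ((m:ℝ) + 1) ≤ |eta P0 α (T (ee P0 β))|} := by
    rintro α ⟨β, hβ⟩
    obtain ⟨m, hm⟩ := exists_nat_one_div_lt (abs_pos.mpr hβ)
    rw [Set.mem_iUnion]
    exact ⟨m, β, hm.le⟩
  refine Set.Countable.mono h1 (Set.countable_iUnion fun m => ?_)
  refine core T (ee P0) (norm_ee P0) flat_ee_LL (s₁ := 0) (s₂ := 1 / 2)
    (δ := 1 / ((m:ℝ) + 1)) le_rfl (by norm_num) (by positivity) Set.univ ?_ _ ?_ ?_
  · intro s _ _
    rw [Real.rpow_zero, mul_one]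
    exact flat_ee P0 s
  · rintro α ⟨β, hβ⟩
    exact ⟨β, Set.mem_univ _, hβ⟩
  · intro α _
    exact rr_ge α

/-- Second exceptional set. -/
lemma claim2 (T : XX P0 →L[ℝ] XX P0) :
    {α | ∃ β, rr β < rr α ∧ eta P0 α (T (ff P0 β)) ≠ 0}.Countable := by
  have h1 : {α | ∃ β, rr β < rr α ∧ eta P0 α (T (ff P0 β)) ≠ 0} ⊆
      ⋃ m : ℕ, ⋃ q : ℚ, ⋃ q' : ℚ, {α | (0 < (q:ℝ) ∧ (q:ℝ) < q') ∧ (q':ℝ) ≤ rr α ∧
        ∃ β, rr β ≤ q ∧ 1 / ((m:ℝ) + 1) ≤ |eta P0 α (T (ff P0 β))|} := by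
    rintro α ⟨β, hlt, hβ⟩
    obtain ⟨m, hm⟩ := exists_nat_one_div_lt (abs_pos.mpr hβ)
    obtain ⟨q, hq1, hq2⟩ := exists_rat_btwn hlt
    obtain ⟨q', hq1', hq2'⟩ := exists_rat_btwn hq2
    have h0 := rr_ge β
    rw [Set.mem_iUnion]
    refine ⟨m, ?_⟩
    rw [Set.mem_iUnion]
    refine ⟨q, ?_⟩
    rw [Set.mem_iUnion]
    exact ⟨q', ⟨by linarith, hq1'⟩, hq2'.le, β, hq1.le, hm.le⟩
  refine Set.Countable.mono h1 (Set.countable_iUnion fun m => Set.countable_iUnion fun q =>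
    Set.countable_iUnion fun q' => ?_)
  by_cases hq : 0 < (q:ℝ) ∧ (q:ℝ) < q'
  · refine core T (ff P0) (norm_ff P0) flat_ff_LL1 (s₁ := q) (s₂ := q')
      (δ := 1 / ((m:ℝ) + 1)) hq.1.le hq.2 (by positivity) {β | rr β ≤ q} ?_ _ ?_ ?_
    · intro s hs1 hs
      exact flat_ff_LL s hq.1.le (fun β hβ => hs hβ) hs1
    · rintro α ⟨_, _, β, hβ1, hβ2⟩
      exact ⟨β, hβ1, hβ2⟩
    · rintro α ⟨_, h, _⟩
      exact h
  · convert Set.countable_empty
    ext α
    simp only [Set.mem_empty_iff_false, iff_false]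
    rintro ⟨h, _⟩
    exact hq h

theorem no_complex (J : XX P0 →L[ℝ] XX P0)
    (hJ : J.comp J = -(ContinuousLinearMap.id ℝ (XX P0))) : False := by
  set E : Set P0.Γ := {α | ∃ β, eta P0 α (J (ee P0 β)) ≠ 0} ∪
    {α | ∃ β, rr β < rr α ∧ eta P0 α (J (ff P0 β)) ≠ 0} with hE
  have hEc : E.Countable := (claim1 J).union (claim2 J)
  have hC3 : (⋃ β ∈ E, {α | eta P0 β (J (ff P0 α)) ≠ 0}).Countable :=
    Set.Countable.biUnion hEc (fun β _ =>
      count_functional (ff P0) flat_ff_LL1 ((eta P0 β).comp J))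
  have hex : ∃ α, α ∉ E ∪ ⋃ β ∈ E, {α | eta P0 β (J (ff P0 α)) ≠ 0} := by
    by_contra hcon
    push Not at hcon
    exact gamma_unc ((hEc.union hC3).mono (fun α _ => hcon α))
  obtain ⟨α, hα⟩ := hex
  rw [Set.mem_union, not_or] at hα
  obtain ⟨hα1, hα2⟩ := hα
  have hα2' : ∀ β ∈ E, eta P0 β (J (ff P0 α)) = 0 := by
    intro β hβ
    by_contra h
    exact hα2 (Set.mem_iUnion₂.mpr ⟨β, hβ, h⟩)
  have hee : ∀ β, ((eta P0 α).comp J) (ee P0 β) = 0 := by
    intro β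
    by_contra h
    exact hα1 (Or.inl ⟨β, h⟩)
  have hexp := expansion P0 ((eta P0 α).comp J) hee (J (ff P0 α))
  have hval : ((eta P0 α).comp J) (J (ff P0 α)) = -1 := by
    have h1 : J (J (ff P0 α)) = -(ff P0 α) := by
      have := congrArg (fun S : XX P0 →L[ℝ] XX P0 => S (ff P0 α)) hJ
      simpa using this
    show eta P0 α (J (J (ff P0 α))) = -1
    rw [h1, map_neg, eta_ff]
    simp
  have hterm : ∀ β, β ≠ α → eta P0 β (J (ff P0 α)) * ((eta P0 α).comp J) (ff P0 β) = 0 := by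
    intro β hβ
    by_cases hβE : β ∈ E
    · rw [hα2' β hβE, zero_mul]
    · have hne : rr β ≠ rr α := fun h => hβ (rr_inj h)
      rcases lt_or_gt_of_ne hne with h | h
      · have : eta P0 α (J (ff P0 β)) = 0 := by
          by_contra h0
          exact hα1 (Or.inr ⟨β, h, h0⟩)
        show eta P0 β (J (ff P0 α)) * eta P0 α (J (ff P0 β)) = 0
        rw [this, mul_zero]
      · have : eta P0 β (J (ff P0 α)) = 0 := by
          by_contra h0
          exact hβE (Or.inr ⟨α, h, h0⟩)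
        rw [this, zero_mul]
  have hsum := hasSum_single α hterm
  have := hexp.unique hsum
  rw [hval] at this
  have h2 : eta P0 α (J (ff P0 α)) * ((eta P0 α).comp J) (ff P0 α) =
    (eta P0 α (J (ff P0 α))) ^ 2 := by
    show eta P0 α (J (ff P0 α)) * eta P0 α (J (ff P0 α)) = _
    ring
  rw [h2] at this
  nlinarith [sq_nonneg (eta P0 α (J (ff P0 α)))]

theorem infinite_dim : ¬ FiniteDimensional ℝ (XX P0) := by
  intro hfd
  have hli : LinearIndependent ℝ (ee P0) := by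
    rw [linearIndependent_iff']
    intro s g hg β hβ
    have := congrArg (xi P0 β) hg
    rw [map_sum, map_zero] at this
    simp only [map_smul, xi_ee, smul_eq_mul, mul_ite, mul_one, mul_zero] at this
    rwa [Finset.sum_ite_eq, if_pos hβ] at this
  have : Finite P0.Γ := hli.finite
  exact gamma_unc Set.finite_univ.countable

/-- the subspace -/
noncomputable def YY : Submodule ℝ (XX P0) := (pr P0).ker

lemma YY_closed : IsClosed (YY : Set (XX P0)) := (pr P0).isClosed_ker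

lemma range_io : (io P0).range = YY := by
  ext z
  simp only [YY, LinearMap.mem_range, LinearMap.mem_ker]
  constructor
  · rintro ⟨x, rfl⟩
    exact pr_io P0 x
  · intro h
    exact exists_io_of_pr P0 h

end Pool.Agent.TH315.TWH
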