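import Mathlib

/-!
Scalar inequalities for the nonseparable twisted Hilbert space.
-/

set_option autoImplicit false

namespace Pool.Agent.TH315.TWH

/-- `w * |log w| ≤ 1 + w ^ 2` for `0 ≤ w`. -/
lemma mul_abs_log_le {w : ℝ} (hw : 0 ≤ w) : w * |Real.log w| ≤ 1 + w ^ 2 := by
  rcases eq_or_lt_of_le hw with h0 | hpos
  · subst h0; simp
  rcases le_total w 1 with h1 | h1
  · have hl : Real.log w ≤ 0 := Real.log_nonpos hw h1
    rw [abs_of_nonpos hl]
    have := Real.one_sub_inv_le_log_of_pos hpos
    have h2 : w * (1 - w⁻¹) ≤ w * Real.log w := mul_le_mul_of_nonneg_left this hw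
    have h3 : w * (1 - w⁻¹) = w - 1 := by field_simp
    nlinarith [sq_nonneg w]
  · have hl : 0 ≤ Real.log w := Real.log_nonneg h1
    rw [abs_of_nonneg hl]
    have := Real.log_le_sub_one_of_pos hpos
    nlinarith

/-- A function which is `1`-Lipschitz and vanishes at `0`. -/
def Adm (φ : ℝ → ℝ) : Prop := φ 0 = 0 ∧ ∀ s t, |φ s - φ t| ≤ |s - t|

lemma Adm.abs_le {φ : ℝ → ℝ} (h : Adm φ) (s : ℝ) : |φ s| ≤ |s| := by
  have := h.2 s 0
  simpa [h.1] using this

lemma adm_diff {φ : ℝ → ℝ} (h : Adm φ) {u m : ℝ} (hm : 0 < m) :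
    |u| * |φ (Real.log |u|) - φ (Real.log m)| ≤ m + u ^ 2 / m := by
  rcases eq_or_ne u 0 with rfl | hu
  · simp; exact hm.le
  have hu' : 0 < |u| := abs_pos.mpr hu
  have h1 : |φ (Real.log |u|) - φ (Real.log m)| ≤ |Real.log (|u| / m)| := by
    rw [Real.log_div hu'.ne' hm.ne']
    exact h.2 _ _
  have h2 := mul_abs_log_le (w := |u| / m) (by positivity)
  have h3 : |u| * |Real.log (|u| / m)| = m * ((|u| / m) * |Real.log (|u| / m)|) := by
    field_simp
  calc |u| * |φ (Real.log |u|) - φ (Real.log m)| ≤ |u| * |Real.log (|u| / m)| :=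
        mul_le_mul_of_nonneg_left h1 hu'.le
    _ = m * ((|u| / m) * |Real.log (|u| / m)|) := h3
    _ ≤ m * (1 + (|u| / m) ^ 2) := mul_le_mul_of_nonneg_left h2 hm.le
    _ = m + u ^ 2 / m := by
        rw [div_pow, sq_abs]; field_simp

lemma adm_bound {φ : ℝ → ℝ} (h : Adm φ) {u : ℝ} (hu : |u| ≤ 1) :
    |u * φ (Real.log |u|)| ≤ 1 := by
  rcases eq_or_ne u 0 with rfl | hu0
  · simp
  have hu' : 0 < |u| := abs_pos.mpr hu0
  rw [abs_mul]
  have hl : Real.log |u| ≤ 0 := Real.log_nonpos hu'.le hu
  have := Real.one_sub_inv_le_log_of_pos hu'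
  have h2 : |u| * (1 - |u|⁻¹) ≤ |u| * Real.log |u| := mul_le_mul_of_nonneg_left this hu'.le
  have h3 : |u| * (1 - |u|⁻¹) = |u| - 1 := by field_simp
  calc |u| * |φ (Real.log |u|)| ≤ |u| * |Real.log (|u|)| :=
        mul_le_mul_of_nonneg_left (h.abs_le _) hu'.le
    _ = - (|u| * Real.log |u|) := by rw [abs_of_nonpos hl]; ring
    _ ≤ 1 := by nlinarith

/-- The main scalar estimate. -/
lemma scalar_main {I : Type} {φ : ℝ → ℝ} (h : Adm φ) {a u : I → ℝ} {A : ℝ} (hA : 0 < A)
    (ha : Summable fun i => |a i|) (haA : ∑' i, |a i| ≤ A) (hu : ∀ i, |u i| ≤ 1) :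
    ((∑' i, a i * (u i * φ (Real.log |u i|))) -
      (∑' i, a i * u i) * φ (Real.log (|∑' i, a i * u i| / A))) ^ 2
      ≤ 16 * A * ∑' i, |a i| * (u i) ^ 2 := by
  have hsq : Summable fun i => |a i| * (u i) ^ 2 := by
    refine Summable.of_nonneg_of_le (fun i => by positivity) (fun i => ?_) ha
    have : (u i) ^ 2 ≤ 1 := by
      have := hu i
      rw [← sq_abs]; exact pow_le_one₀ (abs_nonneg _) this
    nlinarith [abs_nonneg (a i)]
  have hau : Summable fun i => a i * u i := by
    refine Summable.of_norm_bounded ha (fun i => ?_)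
    rw [Real.norm_eq_abs, abs_mul]
    exact mul_le_of_le_one_right (abs_nonneg _) (hu i)
  have haF : Summable fun i => a i * (u i * φ (Real.log |u i|)) := by
    refine Summable.of_norm_bounded ha (fun i => ?_)
    rw [Real.norm_eq_abs, abs_mul]
    exact mul_le_of_le_one_right (abs_nonneg _) (adm_bound h (hu i))
  set S := ∑' i, |a i| * (u i) ^ 2 with hS
  have hS0 : 0 ≤ S := tsum_nonneg fun i => by positivity
  set v := ∑' i, a i * u i with hv
  rcases eq_or_lt_of_le hS0 with hz | hpos
  · -- all terms vanish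
    have hall : ∀ i, |a i| * (u i) ^ 2 = 0 := by
      have := (hsq.hasSum.tsum_eq : _)
      have hs : HasSum (fun i => |a i| * (u i) ^ 2) 0 := by
        rw [hz]; exact hsq.hasSum
      have := (hasSum_zero_iff_of_nonneg (fun i => by positivity)).1 hs
      intro i
      exact congrFun this i
    have hau0 : ∀ i, a i * u i = 0 := by
      intro i
      rcases mul_eq_zero.1 (hall i) with h1 | h1
      · rw [abs_eq_zero.1 h1, zero_mul]
      · rw [pow_eq_zero_iff (by norm_num)] at h1
        rw [h1, mul_zero]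
    have hv0 : v = 0 := by
      rw [hv]
      simp [hau0]
    have hF0 : (∑' i, a i * (u i * φ (Real.log |u i|))) = 0 := by
      have : (fun i => a i * (u i * φ (Real.log |u i|))) = fun _ => (0:ℝ) := by
        funext i
        rw [← mul_assoc, hau0 i, zero_mul]
      rw [this, tsum_zero]
    rw [hF0, hv0, ← hz]
    simp
  · set m := Real.sqrt (S / A) with hm
    have hm2 : m ^ 2 = S / A := Real.sq_sqrt (by positivity)
    have hmpos : 0 < m := Real.sqrt_pos.mpr (by positivity)
    have hSm : S = A * m ^ 2 := by rw [hm2]; field_simp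
    -- pointwise AM-GM sum
    have hsum2 : Summable fun i => |a i| * (m + (u i) ^ 2 / m) := by
      have : (fun i => |a i| * (m + (u i) ^ 2 / m)) =
          fun i => m * |a i| + (1 / m) * (|a i| * (u i) ^ 2) := by
        funext i; field_simp
      rw [this]
      exact (ha.mul_left m).add (hsq.mul_left _)
    have hsum2le : ∑' i, |a i| * (m + (u i) ^ 2 / m) ≤ 2 * A * m := by
      have : (fun i => |a i| * (m + (u i) ^ 2 / m)) =
          fun i => m * |a i| + (1 / m) * (|a i| * (u i) ^ 2) := by
        funext i; field_simp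
      rw [this, Summable.tsum_add (ha.mul_left m) (hsq.mul_left _), tsum_mul_left, tsum_mul_left,
        ← hS, hSm]
      have h1 : m * ∑' i, |a i| ≤ m * A := mul_le_mul_of_nonneg_left haA hmpos.le
      have h2 : 1 / m * (A * m ^ 2) = A * m := by field_simp
      rw [h2]
      nlinarith
    -- first estimate
    have e1 : |(∑' i, a i * (u i * φ (Real.log |u i|))) - v * φ (Real.log m)| ≤ 2 * A * m := by
      have heq : (∑' i, a i * (u i * φ (Real.log |u i|))) - v * φ (Real.log m) =
          ∑' i, a i * (u i * (φ (Real.log |u i|) - φ (Real.log m))) := by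
        rw [hv, ← tsum_mul_right, ← Summable.tsum_sub haF (hau.mul_right _)]
        congr 1; funext i; ring
      rw [heq, ← Real.norm_eq_abs]
      refine le_trans (tsum_of_norm_bounded hsum2.hasSum (fun i => ?_)) hsum2le
      rw [Real.norm_eq_abs, abs_mul, abs_mul]
      exact mul_le_mul_of_nonneg_left (adm_diff h hmpos) (abs_nonneg _)
    -- bound of v
    have hvm : |v| ≤ A * m := by
      have : |v| ≤ ∑' i, (1 / 2) * (|a i| * (m + (u i) ^ 2 / m)) := by
        rw [hv, ← Real.norm_eq_abs]
        refine tsum_of_norm_bounded (hsum2.mul_left _).hasSum (fun i => ?_)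
        rw [Real.norm_eq_abs, abs_mul]
        have h1 : |u i| ≤ 1 / 2 * (m + (u i) ^ 2 / m) := by
          rw [← sq_abs (u i)]
          have : 0 ≤ (m - |u i|) ^ 2 := sq_nonneg _
          have h3 : 1 / 2 * (m + |u i| ^ 2 / m) - |u i| = (m - |u i|) ^ 2 / (2 * m) := by
            field_simp; ring
          have h4 : 0 ≤ (m - |u i|) ^ 2 / (2 * m) := by positivity
          linarith
        calc |a i| * |u i| ≤ |a i| * (1 / 2 * (m + (u i) ^ 2 / m)) :=
              mul_le_mul_of_nonneg_left h1 (abs_nonneg _)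
          _ = _ := by ring
      rw [tsum_mul_left] at this
      linarith
    have e2 : |v * φ (Real.log m) - v * φ (Real.log (|v| / A))| ≤ 2 * A * m := by
      have h1 := adm_diff (u := v / A) h hmpos
      rw [abs_div, abs_of_pos hA] at h1
      have h2 : (v / A) ^ 2 ≤ m ^ 2 := by
        rw [← sq_abs, abs_div, abs_of_pos hA]
        have : |v| / A ≤ m := by rw [div_le_iff₀ hA]; linarith
        exact pow_le_pow_left₀ (by positivity) this 2
      have h3 : (v / A) ^ 2 / m ≤ m := by
        rw [div_le_iff₀ hmpos]; nlinarith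
      rw [← mul_sub, abs_mul, abs_sub_comm]
      have h4 : |v| * |φ (Real.log (|v| / A)) - φ (Real.log m)| =
          A * (|v| / A * |φ (Real.log (|v| / A)) - φ (Real.log m)|) := by
        field_simp
      rw [h4]
      calc A * (|v| / A * |φ (Real.log (|v| / A)) - φ (Real.log m)|)
          ≤ A * (m + (v / A) ^ 2 / m) := mul_le_mul_of_nonneg_left h1 hA.le
        _ ≤ A * (m + m) := by
            apply mul_le_mul_of_nonneg_left _ hA.le; linarith
        _ = 2 * A * m := by ring
    have e3 : |(∑' i, a i * (u i * φ (Real.log |u i|))) - v * φ (Real.log (|v| / A))|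
        ≤ 4 * A * m := by
      have := abs_add_le ((∑' i, a i * (u i * φ (Real.log |u i|))) - v * φ (Real.log m))
        (v * φ (Real.log m) - v * φ (Real.log (|v| / A)))
      rw [sub_add_sub_cancel] at this
      linarith
    calc ((∑' i, a i * (u i * φ (Real.log |u i|))) - v * φ (Real.log (|v| / A))) ^ 2
        = |(∑' i, a i * (u i * φ (Real.log |u i|))) - v * φ (Real.log (|v| / A))| ^ 2 := by
          rw [sq_abs]
      _ ≤ (4 * A * m) ^ 2 := pow_le_pow_left₀ (abs_nonneg _) e3 2
      _ = 16 * A * S := by rw [hSm]; ring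

end Pool.Agent.TH315.TWH
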