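import Pool.Agent.TH315.TWH.Scalar

/-!
The nonseparable twisted Hilbert space as a quotient of `ℓ¹(Ball) × ℓ²(Γ)`.
-/

set_option autoImplicit false

open scoped ENNReal

namespace Pool.Agent.TH315.TWH

/-- parameters -/
structure Par where
  Γ : Type
  φ : Γ → ℝ → ℝ
  h : ∀ α, Adm (φ α)

variable (P : Par)

/-- the Hilbert space `ℓ²(Γ)` -/
abbrev HS : Type := lp (fun _ : P.Γ => ℝ) 2

/-- the closed unit ball of `ℓ²(Γ)` -/
abbrev Ball : Type := {y : HS P // ‖y‖ ≤ 1}

/-- `ℓ¹(Ball)` -/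
abbrev L1 : Type := lp (fun _ : Ball P => ℝ) 1

lemma l1_summable {I : Type} (a : lp (fun _ : I => ℝ) 1) : Summable fun i => |a i| := by
  have := (lp.memℓp a).summable (by simp)
  simpa using this

lemma l1_norm {I : Type} (a : lp (fun _ : I => ℝ) 1) : ‖a‖ = ∑' i, |a i| := by
  rw [lp.norm_eq_tsum_rpow (by simp)]
  simp

/-- The synthesis operator `a ↦ ∑ aᵢ cᵢ`. -/
noncomputable def synth {I V : Type} [NormedAddCommGroup V] [NormedSpace ℝ V] [CompleteSpace V]
    (c : I → V) (hc : ∀ i, ‖c i‖ ≤ 1) : lp (fun _ : I => ℝ) 1 →L[ℝ] V :=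
  LinearMap.mkContinuous
    { toFun := fun a => ∑' i, a i • c i
      map_add' := by
        intro a b
        have hs : ∀ a : lp (fun _ : I => ℝ) 1, Summable fun i => a i • c i := fun a =>
          Summable.of_norm_bounded (l1_summable a) (fun i => by
            rw [norm_smul, Real.norm_eq_abs]
            exact mul_le_of_le_one_right (abs_nonneg _) (hc i))
        rw [← Summable.tsum_add (hs a) (hs b)]
        congr 1; funext i
        simp [add_smul]
      map_smul' := by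
        intro r a
        have hs : ∀ a : lp (fun _ : I => ℝ) 1, Summable fun i => a i • c i := fun a =>
          Summable.of_norm_bounded (l1_summable a) (fun i => by
            rw [norm_smul, Real.norm_eq_abs]
            exact mul_le_of_le_one_right (abs_nonneg _) (hc i))
        simp only [RingHom.id_apply]
        rw [← Summable.tsum_const_smul r (hs a)]
        congr 1; funext i
        simp [smul_smul] } 1 (by
      intro a
      rw [one_mul, l1_norm a]
      refine tsum_of_norm_bounded (l1_summable a).hasSum (fun i => ?_)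
      rw [norm_smul, Real.norm_eq_abs]
      exact mul_le_of_le_one_right (abs_nonneg _) (hc i))

lemma synth_apply {I V : Type} [NormedAddCommGroup V] [NormedSpace ℝ V] [CompleteSpace V]
    (c : I → V) (hc : ∀ i, ‖c i‖ ≤ 1) (a : lp (fun _ : I => ℝ) 1) :
    synth c hc a = ∑' i, a i • c i := rfl

lemma synth_summable {I V : Type} [NormedAddCommGroup V] [NormedSpace ℝ V] [CompleteSpace V]
    (c : I → V) (hc : ∀ i, ‖c i‖ ≤ 1) (a : lp (fun _ : I => ℝ) 1) :
    Summable fun i => a i • c i :=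
  Summable.of_norm_bounded (l1_summable a) (fun i => by
    rw [norm_smul, Real.norm_eq_abs]
    exact mul_le_of_le_one_right (abs_nonneg _) (hc i))

lemma synth_norm_le {I V : Type} [NormedAddCommGroup V] [NormedSpace ℝ V] [CompleteSpace V]
    (c : I → V) (hc : ∀ i, ‖c i‖ ≤ 1) (a : lp (fun _ : I => ℝ) 1) :
    ‖synth c hc a‖ ≤ ‖a‖ := by
  rw [synth_apply, l1_norm a]
  refine tsum_of_norm_bounded (l1_summable a).hasSum (fun i => ?_)
  rw [norm_smul, Real.norm_eq_abs]
  exact mul_le_of_le_one_right (abs_nonneg _) (hc i)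

lemma synth_single {I V : Type} [DecidableEq I] [NormedAddCommGroup V] [NormedSpace ℝ V]
    [CompleteSpace V] (c : I → V) (hc : ∀ i, ‖c i‖ ≤ 1) (i : I) (t : ℝ) :
    synth c hc (lp.single 1 i t) = t • c i := by
  rw [synth_apply, tsum_eq_single i]
  · simp
  · intro j hj
    simp [hj]

/-- evaluation at a coordinate -/
noncomputable def ev {J : Type} (α : J) : lp (fun _ : J => ℝ) 2 →L[ℝ] ℝ :=
  LinearMap.mkContinuous
    { toFun := fun x => x α
      map_add' := fun _ _ => rfl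
      map_smul' := fun _ _ => rfl } 1 (fun x => by
        rw [one_mul]; exact lp.norm_apply_le_norm (by norm_num) x α)

@[simp] lemma ev_apply {J : Type} (α : J) (x : lp (fun _ : J => ℝ) 2) : ev α x = x α := rfl

lemma ball_coord (i : Ball P) (α : P.Γ) : |i.1 α| ≤ 1 :=
  (lp.norm_apply_le_norm (by norm_num) i.1 α).trans i.2

/-- the value of the centralizer -/
noncomputable def Fv (α : P.Γ) (u : ℝ) : ℝ := u * P.φ α (Real.log |u|)

lemma Fv_bound (α : P.Γ) (i : Ball P) : ‖Fv P α (i.1 α)‖ ≤ 1 :=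
  adm_bound (P.h α) (ball_coord P i α)

/-- The big space. -/
abbrev EE : Type := L1 P × HS P

noncomputable def piT : EE P →L[ℝ] HS P :=
  (synth (fun i : Ball P => i.1) (fun i => i.2)).comp (ContinuousLinearMap.fst ℝ (L1 P) (HS P))

noncomputable def etaT (α : P.Γ) : EE P →L[ℝ] ℝ := (ev α).comp (piT P)

noncomputable def xiT (α : P.Γ) : EE P →L[ℝ] ℝ :=
  (ev α).comp (ContinuousLinearMap.snd ℝ (L1 P) (HS P)) +
    (synth (fun i : Ball P => Fv P α (i.1 α)) (Fv_bound P α)).comp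
      (ContinuousLinearMap.fst ℝ (L1 P) (HS P))

lemma piT_apply (z : EE P) : piT P z = ∑' i, z.1 i • i.1 := rfl

lemma etaT_apply' (α : P.Γ) (z : EE P) : etaT P α z = piT P z α := rfl

lemma etaT_apply (α : P.Γ) (z : EE P) : etaT P α z = ∑' i, z.1 i * i.1 α := by
  have h : etaT P α z = ev α (∑' i, z.1 i • i.1) := rfl
  rw [h, ContinuousLinearMap.map_tsum (ev α) (synth_summable (fun i : Ball P => i.1) (fun i => i.2) z.1)]
  rfl

lemma xiT_apply (α : P.Γ) (z : EE P) :
    xiT P α z = z.2 α + ∑' i, z.1 i * (i.1 α * P.φ α (Real.log |i.1 α|)) := rfl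

/-- The kernel. -/
noncomputable def KK : Submodule ℝ (EE P) :=
  (piT P).ker ⊓ ⨅ α, (xiT P α).ker

lemma mem_KK (z : EE P) : z ∈ KK P ↔ piT P z = 0 ∧ ∀ α, xiT P α z = 0 := by
  simp [KK, Submodule.mem_inf, Submodule.mem_iInf]

instance instClosedKK : IsClosed (KK P : Set (EE P)) := by
  have : (KK P : Set (EE P)) = {z | piT P z = 0} ∩ ⋂ α, {z | xiT P α z = 0} := by
    ext z
    simp [mem_KK]
  rw [this]
  refine IsClosed.inter (isClosed_eq (piT P).continuous continuous_const) ?_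
  exact isClosed_iInter fun α => isClosed_eq (xiT P α).continuous continuous_const

/-- The twisted Hilbert space. -/
abbrev XX : Type := EE P ⧸ KK P

example : CompleteSpace (XX P) := inferInstance

/-- the quotient map -/
noncomputable def Q : EE P →L[ℝ] XX P := (KK P).mkQL

lemma Q_surj : Function.Surjective (Q P) := Submodule.Quotient.mk_surjective _

lemma Q_norm (z : EE P) : ‖Q P z‖ ≤ ‖z‖ := Submodule.Quotient.norm_mk_le _ z

lemma Q_lift (z : XX P) {A : ℝ} (hA : ‖z‖ < A) : ∃ w : EE P, Q P w = z ∧ ‖w‖ < A := by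
  obtain ⟨w, h1, h2⟩ := Submodule.Quotient.norm_mk_lt z (sub_pos.mpr hA)
  exact ⟨w, h1, by linarith⟩

noncomputable def pr : XX P →L[ℝ] HS P :=
  (KK P).liftQL (piT P) (fun z hz => by simpa using ((mem_KK P z).1 hz).1)

noncomputable def xi (α : P.Γ) : XX P →L[ℝ] ℝ :=
  (KK P).liftQL (xiT P α) (fun z hz => by simpa using ((mem_KK P z).1 hz).2 α)

noncomputable def eta (α : P.Γ) : XX P →L[ℝ] ℝ := (ev α).comp (pr P)

@[simp] lemma pr_Q (z : EE P) : pr P (Q P z) = piT P z := rfl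
@[simp] lemma xi_Q (α : P.Γ) (z : EE P) : xi P α (Q P z) = xiT P α z := rfl
@[simp] lemma eta_Q (α : P.Γ) (z : EE P) : eta P α (Q P z) = etaT P α z := rfl
lemma eta_apply (α : P.Γ) (z : XX P) : eta P α z = pr P z α := rfl

lemma Q_eq_iff (z w : EE P) : Q P z = Q P w ↔ piT P z = piT P w ∧ ∀ α, xiT P α z = xiT P α w := by
  have : Q P z = Q P w ↔ z - w ∈ KK P := Submodule.Quotient.eq _
  rw [this, mem_KK]
  simp [sub_eq_zero]

lemma ext_XX {z w : XX P} (h1 : ∀ α, eta P α z = eta P α w) (h2 : ∀ α, xi P α z = xi P α w) :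
    z = w := by
  obtain ⟨z, rfl⟩ := Q_surj P z
  obtain ⟨w, rfl⟩ := Q_surj P w
  rw [Q_eq_iff]
  refine ⟨?_, h2⟩
  apply lp.ext
  funext α
  exact h1 α

lemma norm_pr_le (z : XX P) : ‖pr P z‖ ≤ ‖z‖ := by
  refine le_of_forall_gt_imp_ge_of_dense (fun A hA => ?_)
  obtain ⟨w, rfl, hw⟩ := Q_lift P z hA
  rw [pr_Q]
  refine le_trans ?_ hw.le
  exact le_trans (synth_norm_le (fun i : Ball P => i.1) (fun i => i.2) w.1) (norm_fst_le w)

lemma abs_eta_le (α : P.Γ) (z : XX P) : |eta P α z| ≤ ‖z‖ :=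
  (lp.norm_apply_le_norm (by norm_num) (pr P z) α).trans (norm_pr_le P z)

lemma abs_xi_le (α : P.Γ) (z : XX P) : |xi P α z| ≤ 2 * ‖z‖ := by
  have key : ∀ w : EE P, |xiT P α w| ≤ 2 * ‖w‖ := by
    intro w
    have h1 : |xiT P α w| ≤ |w.2 α| + |synth (fun i : Ball P => Fv P α (i.1 α)) (Fv_bound P α) w.1| :=
      abs_add_le _ _
    have h2 : |w.2 α| ≤ ‖w‖ := (lp.norm_apply_le_norm (by norm_num) w.2 α).trans (norm_snd_le w)
    have h3 : |synth (fun i : Ball P => Fv P α (i.1 α)) (Fv_bound P α) w.1| ≤ ‖w‖ :=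
      (synth_norm_le (fun i : Ball P => Fv P α (i.1 α)) (Fv_bound P α) w.1).trans (norm_fst_le w)
    linarith
  refine le_of_forall_gt_imp_ge_of_dense (fun A hA => ?_)
  have hA' : ‖z‖ < A / 2 := by linarith
  obtain ⟨w, rfl, hw⟩ := Q_lift P z hA'
  rw [xi_Q]
  have := key w
  linarith

/-- The defining inequality. -/
lemma twist (z : XX P) {A : ℝ} (hA : ‖z‖ < A) (s : Finset P.Γ) :
    ∑ α ∈ s, (xi P α z - eta P α z * P.φ α (Real.log (|eta P α z| / A))) ^ 2 ≤ 34 * A ^ 2 := by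
  have hA0 : 0 < A := (norm_nonneg z).trans_lt hA
  obtain ⟨w, rfl, hw⟩ := Q_lift P z hA
  have ha := l1_summable w.1
  have haA : ∑' i, |w.1 i| ≤ A := by
    rw [← l1_norm]; exact ((norm_fst_le w).trans hw.le)
  have hx : ∑ α ∈ s, (w.2 α) ^ 2 ≤ A ^ 2 := by
    have := lp.sum_rpow_le_norm_rpow (p := 2) (by norm_num) w.2 s
    simp only [ENNReal.toReal_ofNat, Real.rpow_ofNat, Real.norm_eq_abs, sq_abs] at this
    refine this.trans ?_
    exact pow_le_pow_left₀ (norm_nonneg _) ((norm_snd_le w).trans hw.le) 2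
  have hD : ∀ α, (xi P α (Q P w) - eta P α (Q P w) *
      P.φ α (Real.log (|eta P α (Q P w)| / A))) ^ 2 ≤
      2 * (w.2 α) ^ 2 + 2 * (16 * A * ∑' i, |w.1 i| * (i.1 α) ^ 2) := by
    intro α
    have h1 := scalar_main (P.h α) (a := fun i : Ball P => w.1 i) (u := fun i : Ball P => i.1 α)
      hA0 ha haA (fun i => ball_coord P i α)
    rw [xi_Q, eta_Q, xiT_apply, etaT_apply]
    set S1 := ∑' i : Ball P, w.1 i * (i.1 α * P.φ α (Real.log |i.1 α|))
    set V := ∑' i : Ball P, w.1 i * i.1 α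
    have : w.2 α + S1 - V * P.φ α (Real.log (|V| / A)) =
      w.2 α + (S1 - V * P.φ α (Real.log (|V| / A))) := by ring
    rw [this]
    nlinarith [sq_nonneg (w.2 α - (S1 - V * P.φ α (Real.log (|V| / A))))]
  have hsq : ∀ α, Summable fun i : Ball P => |w.1 i| * (i.1 α) ^ 2 := by
    intro α
    refine Summable.of_nonneg_of_le (fun i => by positivity) (fun i => ?_) ha
    have : (i.1 α) ^ 2 ≤ 1 := by
      rw [← sq_abs]; exact pow_le_one₀ (abs_nonneg _) (ball_coord P i α)
    nlinarith [abs_nonneg (w.1 i)]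
  have hS : ∑ α ∈ s, ∑' i : Ball P, |w.1 i| * (i.1 α) ^ 2 ≤ A := by
    rw [← Summable.tsum_finsetSum (fun α _ => hsq α)]
    refine le_trans ?_ haA
    refine Summable.tsum_le_tsum (fun i => ?_) (summable_sum fun α _ => hsq α) ha
    rw [← Finset.mul_sum]
    refine mul_le_of_le_one_right (abs_nonneg _) ?_
    have := lp.sum_rpow_le_norm_rpow (p := 2) (by norm_num) i.1 s
    simp only [ENNReal.toReal_ofNat, Real.rpow_ofNat, Real.norm_eq_abs, sq_abs] at this
    refine this.trans ?_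
    exact pow_le_one₀ (norm_nonneg _) i.2
  calc ∑ α ∈ s, (xi P α (Q P w) - eta P α (Q P w) *
        P.φ α (Real.log (|eta P α (Q P w)| / A))) ^ 2
      ≤ ∑ α ∈ s, (2 * (w.2 α) ^ 2 + 2 * (16 * A * ∑' i : Ball P, |w.1 i| * (i.1 α) ^ 2)) :=
        Finset.sum_le_sum fun α _ => hD α
    _ = 2 * ∑ α ∈ s, (w.2 α) ^ 2 + 32 * A * ∑ α ∈ s, ∑' i : Ball P, |w.1 i| * (i.1 α) ^ 2 := by
        rw [Finset.sum_add_distrib, Finset.mul_sum, Finset.mul_sum]
        congr 1
        refine Finset.sum_congr rfl (fun α _ => by ring)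
    _ ≤ 2 * A ^ 2 + 32 * A * A := by
        have : 32 * A * ∑ α ∈ s, ∑' i : Ball P, |w.1 i| * (i.1 α) ^ 2 ≤ 32 * A * A :=
          mul_le_mul_of_nonneg_left hS (by positivity)
        linarith
    _ = 34 * A ^ 2 := by ring

end Pool.Agent.TH315.TWH
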