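import Pool.Agent.TH315.TWH.Vec

/-!
The uncountable family of growth exponents, the flat-vector test, and the absence of complex
structures.
-/

set_option autoImplicit false

open scoped ENNReal Classical

namespace Pool.Agent.TH315.TWH

/-- the growth functions -/
noncomputable def pw (r t : ℝ) : ℝ := (1 + |t|) ^ r - 1

lemma pw_mono_aux {r x y : ℝ} (hr0 : 0 ≤ r) (hr1 : r ≤ 1) (hx : 1 ≤ x) (hxy : x ≤ y) :
    y ^ r - x ^ r ≤ y - x := by
  have hx0 : 0 < x := by linarith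
  have h1 : y ^ r = x ^ r * (1 + (y - x) / x) ^ r := by
    rw [← Real.mul_rpow hx0.le (by have : 0 ≤ (y - x) / x := div_nonneg (by linarith) hx0.le
                                   linarith)]
    congr 1
    field_simp; ring
  have h2 : (1 + (y - x) / x) ^ r ≤ 1 + r * ((y - x) / x) :=
    rpow_one_add_le_one_add_mul_self
      (by have : 0 ≤ (y - x) / x := div_nonneg (by linarith) hx0.le
          linarith) hr0 hr1
  have h3 : x ^ r ≤ x := by
    calc x ^ r ≤ x ^ (1:ℝ) := Real.rpow_le_rpow_of_exponent_le hx hr1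
      _ = x := Real.rpow_one x
  have h4 : 0 ≤ x ^ r := Real.rpow_nonneg hx0.le r
  have h5 : 0 ≤ (y - x) / x := div_nonneg (by linarith) hx0.le
  calc y ^ r - x ^ r = x ^ r * ((1 + (y - x) / x) ^ r - 1) := by rw [h1]; ring
    _ ≤ x ^ r * (r * ((y - x) / x)) := by
        apply mul_le_mul_of_nonneg_left _ h4; linarith
    _ ≤ x * (1 * ((y - x) / x)) := by
        apply mul_le_mul h3 _ (by positivity) hx0.le
        exact mul_le_mul_of_nonneg_right hr1 h5
    _ = y - x := by field_simp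

lemma pw_adm {r : ℝ} (hr0 : 0 ≤ r) (hr1 : r ≤ 1) : Adm (pw r) := by
  constructor
  · simp [pw]
  · intro s t
    have hs : 0 ≤ |s| := abs_nonneg s
    have ht : 0 ≤ |t| := abs_nonneg t
    have key : |pw r s - pw r t| ≤ |(|s|) - (|t|)| := by
      unfold pw
      rcases le_total |s| |t| with h | h
      · have h1 := pw_mono_aux hr0 hr1 (x := 1 + |s|) (y := 1 + |t|) (by linarith) (by linarith)
        have h2 : (1 + |s|) ^ r ≤ (1 + |t|) ^ r :=
          Real.rpow_le_rpow (by linarith) (by linarith) hr0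
        have h3 : |(|s|) - (|t|)| = |t| - |s| := by
          rw [abs_sub_comm]; exact abs_of_nonneg (by linarith)
        rw [h3, abs_le]
        constructor <;> linarith
      · have h1 := pw_mono_aux hr0 hr1 (x := 1 + |t|) (y := 1 + |s|) (by linarith) (by linarith)
        have h2 : (1 + |t|) ^ r ≤ (1 + |s|) ^ r :=
          Real.rpow_le_rpow (by linarith) (by linarith) hr0
        have h3 : |(|s|) - (|t|)| = |s| - |t| := abs_of_nonneg (by linarith)
        rw [h3, abs_le]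
        constructor <;> linarith
    exact key.trans (abs_abs_sub_abs_le s t)

/-- The concrete parameters. -/
noncomputable def P0 : Par where
  Γ := Set.Icc (1 / 2 : ℝ) 1
  φ := fun α => pw α.1
  h := fun α => pw_adm (by have := α.2.1; linarith) α.2.2

/-- the exponent -/
def rr (α : P0.Γ) : ℝ := (show Set.Icc (1 / 2 : ℝ) 1 from α).1

lemma rr_inj : Function.Injective rr := Subtype.val_injective

lemma rr_ge (α : P0.Γ) : 1 / 2 ≤ rr α := (show Set.Icc (1 / 2 : ℝ) 1 from α).2.1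

lemma rr_le (α : P0.Γ) : rr α ≤ 1 := (show Set.Icc (1 / 2 : ℝ) 1 from α).2.2

lemma phi_eq (α : P0.Γ) (t : ℝ) : P0.φ α t = (1 + |t|) ^ (rr α) - 1 := rfl

lemma gamma_unc : ¬ (Set.univ : Set P0.Γ).Countable := by
  intro h
  have h1 : (Set.Icc (1 / 2 : ℝ) 1).Countable := by
    have h2 : (Set.range rr).Countable := by
      rw [← Set.image_univ]; exact h.image rr
    have h3 : Set.Icc (1 / 2 : ℝ) 1 ⊆ Set.range rr := fun x hx => ⟨⟨x, hx⟩, rfl⟩
    exact h2.mono h3
  have h2 : ¬ (Set.Icc (1 / 2 : ℝ) 1).Countable := by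
    intro hc
    have := Cardinal.mk_Icc_real (a := 1 / 2) (b := 1) (by norm_num)
    have h3 := hc.le_aleph0
    rw [this] at h3
    exact absurd h3 (not_le.mpr Cardinal.aleph0_lt_continuum)
  exact h2 h1

instance : Nonempty P0.Γ := ⟨(⟨1, by norm_num⟩ : Set.Icc (1 / 2 : ℝ) 1)⟩

/-- the sizes -/
noncomputable def LL (n : ℕ) : ℝ := 1 + 1 / 2 * Real.log n

lemma LL_ge (n : ℕ) (hn : 1 ≤ n) : 1 ≤ LL n := by
  have : 0 ≤ Real.log n := Real.log_nonneg (by exact_mod_cast hn)
  unfold LL; linarith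

lemma log_inv_sqrt (n : ℕ) : Real.log (1 / Real.sqrt n) = -(1 / 2 * Real.log n) := by
  rw [one_div, Real.log_inv, Real.log_sqrt (by positivity)]
  ring

lemma abs_log_inv_sqrt (n : ℕ) (hn : 1 ≤ n) : |Real.log (1 / Real.sqrt n)| = LL n - 1 := by
  rw [log_inv_sqrt, abs_neg]
  have : 0 ≤ Real.log n := Real.log_nonneg (by exact_mod_cast hn)
  rw [abs_of_nonneg (by positivity)]
  unfold LL; ring

lemma LL_tendsto : Filter.Tendsto LL Filter.atTop Filter.atTop := by
  unfold LL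
  apply Filter.tendsto_atTop_add_const_left
  apply Filter.Tendsto.const_mul_atTop (by norm_num)
  exact Real.tendsto_log_atTop.comp tendsto_natCast_atTop_atTop

lemma asymp {M δ s₁ s₂ : ℝ} (hM : 0 ≤ M) (hδ : 0 < δ) (hs1 : 0 ≤ s₁) (hs : s₁ < s₂) :
    ∃ n : ℕ, 1 ≤ n ∧ 6 * M * (LL n) ^ s₁ < δ * ((LL n) ^ s₂ - 1) - 2 * M := by
  have h1 : Filter.Tendsto (fun n : ℕ => (LL n) ^ (s₂ - s₁)) Filter.atTop Filter.atTop :=
    (tendsto_rpow_atTop (sub_pos.mpr hs)).comp LL_tendsto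
  obtain ⟨n, hn1, hn⟩ := ((h1.eventually_gt_atTop ((8 * M + δ) / δ)).and
    (Filter.eventually_ge_atTop 1)).exists
  refine ⟨n, hn, ?_⟩
  have hL := LL_ge n hn
  have hL0 : 0 < LL n := by linarith
  have h2 : (LL n) ^ s₂ = (LL n) ^ s₁ * (LL n) ^ (s₂ - s₁) := by
    rw [← Real.rpow_add hL0]; congr 1; ring
  have h3 : 1 ≤ (LL n) ^ s₁ := Real.one_le_rpow hL hs1
  have h4 : 8 * M + δ < δ * (LL n) ^ (s₂ - s₁) := by
    have := (div_lt_iff₀ hδ).1 hn1
    linarith
  have h5 : (LL n) ^ s₁ * (8 * M + δ) < (LL n) ^ s₁ * (δ * (LL n) ^ (s₂ - s₁)) :=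
    mul_lt_mul_of_pos_left h4 (by linarith)
  rw [h2]
  nlinarith

/-! ### Countability -/

lemma count_eta (P : Par) (z : XX P) : {α | eta P α z ≠ 0}.Countable := by
  have h1 : Summable fun α => (eta P α z) ^ 2 := by
    have := (lp.memℓp (pr P z)).summable (by norm_num)
    simpa [eta_apply] using this
  have := h1.countable_support
  refine this.mono (fun α hα => ?_)
  simpa [Function.mem_support] using hα

lemma count_xi (P : Par) (z : XX P) : {α | xi P α z ≠ 0}.Countable := by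
  have h1 : Summable fun α => (xi P α z - eta P α z * P.φ α
      (Real.log (|eta P α z| / (‖z‖ + 1)))) ^ 2 :=
    summable_of_sum_le (fun α => sq_nonneg _) (twist P z (lt_add_one ‖z‖))
  have h2 := h1.countable_support
  refine (h2.union (count_eta P z)).mono (fun α hα => ?_)
  by_cases h : eta P α z = 0
  · left
    simp only [Function.mem_support, h, zero_mul, sub_zero]
    exact pow_ne_zero 2 hα
  · right; exact h

lemma fin_functional {V : Type} [NormedAddCommGroup V] [NormedSpace ℝ V] {Γ : Type} (u : Γ → V)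
    (hu : ∀ s : Finset Γ, ‖∑ β ∈ s, u β‖ ≤ Real.sqrt s.card * LL s.card) (g : V →L[ℝ] ℝ)
    {δ : ℝ} (hδ : 0 < δ) : {β | δ ≤ g (u β)}.Finite := by
  by_contra hinf
  obtain ⟨k, hk⟩ := exists_nat_gt (3 * ‖g‖ / δ + 1)
  have hk0 : 0 ≤ 3 * ‖g‖ / δ := by positivity
  have hk1 : (1:ℝ) ≤ k := by linarith
  obtain ⟨s, hs, hcard⟩ := Set.Infinite.exists_subset_card_eq hinf (k ^ 4)
  have h1 : (s.card : ℝ) * δ ≤ g (∑ β ∈ s, u β) := by
    rw [map_sum, ← nsmul_eq_mul]
    exact Finset.card_nsmul_le_sum _ _ _ (fun β hβ => hs hβ)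
  have h2 : g (∑ β ∈ s, u β) ≤ ‖g‖ * (Real.sqrt s.card * LL s.card) :=
    (le_abs_self _).trans ((g.le_opNorm _).trans (mul_le_mul_of_nonneg_left (hu s) (norm_nonneg g)))
  rw [hcard] at h1 h2
  have h3 : Real.sqrt ((k ^ 4 : ℕ) : ℝ) = (k:ℝ) ^ 2 := by
    push_cast
    rw [show (k:ℝ) ^ 4 = ((k:ℝ) ^ 2) ^ 2 by ring]
    exact Real.sqrt_sq (by positivity)
  have h4 : LL (k ^ 4) ≤ 3 * k := by
    unfold LL
    push_cast
    rw [Real.log_pow]
    have := Real.log_le_sub_one_of_pos (show (0:ℝ) < k by linarith)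
    push_cast
    linarith
  rw [h3] at h2
  push_cast at h1
  have h5 : (k:ℝ) ^ 4 * δ ≤ ‖g‖ * ((k:ℝ) ^ 2 * (3 * k)) := by
    refine h1.trans (h2.trans ?_)
    apply mul_le_mul_of_nonneg_left _ (norm_nonneg g)
    exact mul_le_mul_of_nonneg_left h4 (by positivity)
  have h6 : (k:ℝ) * δ ≤ 3 * ‖g‖ := by
    have hk3 : (0:ℝ) < (k:ℝ) ^ 3 := by positivity
    have : (k:ℝ) ^ 3 * (k * δ) ≤ (k:ℝ) ^ 3 * (3 * ‖g‖) := by nlinarith
    exact le_of_mul_le_mul_left this hk3
  have h7 : (k:ℝ) ≤ 3 * ‖g‖ / δ := by rw [le_div_iff₀ hδ]; exact h6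
  linarith

lemma count_functional {V : Type} [NormedAddCommGroup V] [NormedSpace ℝ V] {Γ : Type} (u : Γ → V)
    (hu : ∀ s : Finset Γ, ‖∑ β ∈ s, u β‖ ≤ Real.sqrt s.card * LL s.card) (g : V →L[ℝ] ℝ) :
    {β | g (u β) ≠ 0}.Countable := by
  have h1 : {β | g (u β) ≠ 0} ⊆ ⋃ m : ℕ, ({β | 1 / ((m:ℝ) + 1) ≤ g (u β)} ∪
      {β | 1 / ((m:ℝ) + 1) ≤ (-g) (u β)}) := by
    intro β hβ
    have : 0 < |g (u β)| := abs_pos.mpr hβ
    obtain ⟨m, hm⟩ := exists_nat_one_div_lt this
    rw [Set.mem_iUnion]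
    refine ⟨m, ?_⟩
    rcases le_total 0 (g (u β)) with h | h
    · left
      rw [abs_of_nonneg h] at hm
      exact hm.le
    · right
      rw [abs_of_nonpos h] at hm
      exact hm.le
  refine Set.Countable.mono h1 (Set.countable_iUnion fun m => ?_)
  exact ((fin_functional u hu g (by positivity)).countable).union
    ((fin_functional u hu (-g) (by positivity)).countable)

/-- Selection of large free sets. -/
lemma selection {Γ : Type} {A : Set Γ} (hA : ¬ A.Countable) (bad : Γ → Γ → Prop)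
    (h1 : ∀ α ∈ A, {α' ∈ A | bad α α'}.Countable) (h2 : ∀ α ∈ A, {α' ∈ A | bad α' α}.Countable)
    (n : ℕ) : ∃ s : Finset Γ, s.card = n ∧ (s : Set Γ) ⊆ A ∧
      ∀ α ∈ s, ∀ α' ∈ s, α ≠ α' → ¬ bad α α' := by
  induction n with
  | zero => exact ⟨∅, rfl, by simp, by simp⟩
  | succ n ih =>
    obtain ⟨s, hc, hsA, hs⟩ := ih
    have hcount : ((⋃ α ∈ s, ({α' ∈ A | bad α α'} ∪ {α' ∈ A | bad α' α})) ∪ (s : Set Γ)).Countable := by
      refine Set.Countable.union ?_ s.countable_toSet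
      exact Set.Countable.biUnion s.countable_toSet
        (fun α hα => (h1 α (hsA hα)).union (h2 α (hsA hα)))
    have hex : ∃ x ∈ A, x ∉ ((⋃ α ∈ s, ({α' ∈ A | bad α α'} ∪ {α' ∈ A | bad α' α})) ∪ (s : Set Γ)) := by
      by_contra hcon
      push Not at hcon
      exact hA (hcount.mono hcon)
    obtain ⟨x, hxA, hx⟩ := hex
    simp only [Set.mem_union, Set.mem_iUnion, not_or, not_exists, Set.mem_ofPred_eq, not_and] at hx
    have hxs : x ∉ s := by simpa using hx.2
    refine ⟨insert x s, by rw [Finset.card_insert_of_notMem hxs, hc], ?_, ?_⟩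
    · rw [Finset.coe_insert]
      exact Set.insert_subset hxA hsA
    · intro α hα α' hα' hne
      rw [Finset.mem_insert] at hα hα'
      rcases hα with rfl | hα
      · rcases hα' with rfl | hα'
        · exact absurd rfl hne
        · exact (hx.1 α' hα').2 hxA
      · rcases hα' with rfl | hα'
        · exact (hx.1 α hα).1 hxA
        · exact hs α hα α' hα' hne

/-- The flat vector test. -/
lemma core (T : XX P0 →L[ℝ] XX P0) (u : P0.Γ → XX P0) (hu1 : ∀ β, ‖u β‖ ≤ 1)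
    (hflat : ∀ s : Finset P0.Γ, ‖∑ β ∈ s, u β‖ ≤ Real.sqrt s.card * LL s.card)
    {s₁ s₂ δ : ℝ} (hs1 : 0 ≤ s₁) (hs : s₁ < s₂) (hδ : 0 < δ) (U : Set P0.Γ)
    (hU : ∀ s : Finset P0.Γ, 1 ≤ s.card → (s : Set P0.Γ) ⊆ U →
      ‖∑ β ∈ s, u β‖ ≤ Real.sqrt s.card * (LL s.card) ^ s₁)
    (A : Set P0.Γ) (hA : ∀ α ∈ A, ∃ β ∈ U, δ ≤ |eta P0 α (T (u β))|)
    (hA2 : ∀ α ∈ A, s₂ ≤ rr α) : A.Countable := by
  by_contra hunc
  choose! b hbU hb using hA
  -- rows and columns
  have hrow : ∀ α, {β | eta P0 α (T (u β)) ≠ 0 ∨ xi P0 α (T (u β)) ≠ 0}.Countable := fun α =>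
    (count_functional u hflat ((eta P0 α).comp T)).union
      (count_functional u hflat ((xi P0 α).comp T))
  have hcol : ∀ β, {α | eta P0 α (T (u β)) ≠ 0 ∨ xi P0 α (T (u β)) ≠ 0}.Countable := fun β =>
    (count_eta P0 (T (u β))).union (count_xi P0 (T (u β)))
  have hbne : ∀ α ∈ A, eta P0 α (T (u (b α))) ≠ 0 := fun α hα h0 => by
    have := hb α hα
    rw [h0, abs_zero] at this
    linarith
  set bad : P0.Γ → P0.Γ → Prop := fun α α' =>
    eta P0 α (T (u (b α'))) ≠ 0 ∨ xi P0 α (T (u (b α'))) ≠ 0 with hbad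
  have hb1 : ∀ α ∈ A, {α' ∈ A | bad α α'}.Countable := by
    intro α hα
    refine Set.Countable.mono (s₂ := ⋃ β ∈ {β | eta P0 α (T (u β)) ≠ 0 ∨ xi P0 α (T (u β)) ≠ 0},
      {α' | eta P0 α' (T (u β)) ≠ 0 ∨ xi P0 α' (T (u β)) ≠ 0}) ?_
      (Set.Countable.biUnion (hrow α) (fun β _ => hcol β))
    rintro α' ⟨hα', hbb⟩
    rw [Set.mem_iUnion₂]
    exact ⟨b α', hbb, Or.inl (hbne α' hα')⟩
  have hb2 : ∀ α ∈ A, {α' ∈ A | bad α' α}.Countable := by
    intro α hα
    exact (hcol (b α)).mono (fun α' h => h.2)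
  set M : ℝ := ‖T‖ + 1 with hM
  have hT0 : 0 ≤ ‖T‖ := norm_nonneg T
  have hM1 : 1 ≤ M := by linarith
  obtain ⟨n, hn1, hn⟩ := asymp (M := M) (by linarith) hδ hs1 hs
  obtain ⟨s, hcard, hsA, hsb⟩ := selection hunc bad hb1 hb2 n
  have hbinj : Set.InjOn b s := by
    intro α hα α' hα' heq
    by_contra hne
    refine hsb α hα α' hα' hne ?_
    left
    rw [← heq]
    exact hbne α (hsA hα)
  have hsum : ∑ α ∈ s, u (b α) = ∑ β ∈ s.image b, u β := by
    rw [Finset.sum_image hbinj]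
  have hcardi : (s.image b).card = n := by
    rw [Finset.card_image_of_injOn hbinj, hcard]
  have hLn := LL_ge n hn1
  have hn0 : (0:ℝ) < n := by exact_mod_cast hn1
  have hsq : 0 < Real.sqrt n := Real.sqrt_pos.mpr hn0
  have hLs : 1 ≤ (LL n) ^ s₁ := Real.one_le_rpow hLn hs1
  have hnorm : ‖∑ α ∈ s, u (b α)‖ ≤ Real.sqrt n * (LL n) ^ s₁ := by
    rw [hsum]
    have := hU (s.image b) (by rw [hcardi]; exact hn1) (by
      intro β hβ
      rw [Finset.coe_image] at hβ
      obtain ⟨α, hα, rfl⟩ := hβ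
      exact hbU α (hsA hα))
    rwa [hcardi] at this
  set z := T (∑ α ∈ s, u (b α)) with hz
  set A' : ℝ := M * (Real.sqrt n * (LL n) ^ s₁) with hA'
  have hA'pos : 0 < A' := by positivity
  have hzA : ‖z‖ < A' := by
    refine (T.le_opNorm _).trans_lt ?_
    calc ‖T‖ * ‖∑ α ∈ s, u (b α)‖ ≤ ‖T‖ * (Real.sqrt n * (LL n) ^ s₁) :=
          mul_le_mul_of_nonneg_left hnorm hT0
      _ < M * (Real.sqrt n * (LL n) ^ s₁) := by
          apply mul_lt_mul_of_pos_right _ (by positivity)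
          linarith
  have heta : ∀ α ∈ s, eta P0 α z = eta P0 α (T (u (b α))) := by
    intro α hα
    rw [hz, map_sum, map_sum]
    refine Finset.sum_eq_single_of_mem α hα (fun α' hα' hne => ?_)
    have := hsb α hα α' hα' hne.symm
    simp only [hbad, not_or, not_not] at this
    exact this.1
  have hxi : ∀ α ∈ s, xi P0 α z = xi P0 α (T (u (b α))) := by
    intro α hα
    rw [hz, map_sum, map_sum]
    refine Finset.sum_eq_single_of_mem α hα (fun α' hα' hne => ?_)
    have := hsb α hα α' hα' hne.symm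
    simp only [hbad, not_or, not_not] at this
    exact this.2
  have htw := twist P0 z hzA s
  have hterm : ∀ α ∈ s, (6 * M * (LL n) ^ s₁) ^ 2 ≤
      (xi P0 α z - eta P0 α z * P0.φ α (Real.log (|eta P0 α z| / A'))) ^ 2 := by
    intro α hα
    have hTu : ‖T (u (b α))‖ ≤ ‖T‖ := by
      refine (T.le_opNorm _).trans ?_
      have := mul_le_mul_of_nonneg_left (hu1 (b α)) hT0
      linarith
    have he1 : |eta P0 α z| ≤ M := by
      rw [heta α hα]
      exact (abs_eta_le P0 α _).trans (by linarith)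
    have he2 : |xi P0 α z| ≤ 2 * M := by
      rw [hxi α hα]
      exact (abs_xi_le P0 α _).trans (by linarith)
    have he3 : δ ≤ |eta P0 α z| := by
      rw [heta α hα]; exact hb α (hsA hα)
    have he0 : 0 < |eta P0 α z| := hδ.trans_le he3
    have hlog : Real.log (|eta P0 α z| / A') ≤ Real.log (1 / Real.sqrt n) := by
      apply Real.log_le_log (by positivity)
      rw [div_le_div_iff₀ hA'pos hsq, hA']
      have : M * Real.sqrt n ≤ M * (Real.sqrt n * (LL n) ^ s₁) := by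
        apply mul_le_mul_of_nonneg_left _ (by linarith)
        exact le_mul_of_one_le_right hsq.le hLs
      nlinarith
    have hlogneg : Real.log (1 / Real.sqrt n) ≤ 0 := by
      rw [log_inv_sqrt]
      have : 0 ≤ Real.log n := Real.log_nonneg (by exact_mod_cast hn1)
      linarith
    have hlabs : LL n - 1 ≤ |Real.log (|eta P0 α z| / A')| := by
      rw [← abs_log_inv_sqrt n hn1, abs_of_nonpos hlogneg, abs_of_nonpos (hlog.trans hlogneg)]
      linarith
    have hphi : (LL n) ^ s₂ - 1 ≤ P0.φ α (Real.log (|eta P0 α z| / A')) := by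
      rw [phi_eq]
      have h1 : (LL n) ^ s₂ ≤ (LL n) ^ (rr α) :=
        Real.rpow_le_rpow_of_exponent_le hLn (hA2 α (hsA hα))
      have h2 : (LL n) ^ (rr α) ≤ (1 + |Real.log (|eta P0 α z| / A')|) ^ (rr α) :=
        Real.rpow_le_rpow (by linarith) (by linarith) (by have := rr_ge α; linarith)
      linarith
    have hL2 : 0 ≤ (LL n) ^ s₂ - 1 := by
      have := Real.one_le_rpow hLn (hs1.trans hs.le)
      linarith
    have hlow : 6 * M * (LL n) ^ s₁ ≤
        |xi P0 α z - eta P0 α z * P0.φ α (Real.log (|eta P0 α z| / A'))| := by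
      have h1 : |eta P0 α z * P0.φ α (Real.log (|eta P0 α z| / A'))| - |xi P0 α z| ≤
          |xi P0 α z - eta P0 α z * P0.φ α (Real.log (|eta P0 α z| / A'))| := by
        rw [abs_sub_comm (xi P0 α z)]
        exact abs_sub_abs_le_abs_sub _ _
      have h2 : δ * ((LL n) ^ s₂ - 1) ≤ |eta P0 α z * P0.φ α (Real.log (|eta P0 α z| / A'))| := by
        rw [abs_mul, abs_of_nonneg (hL2.trans hphi)]
        exact mul_le_mul he3 hphi hL2 (abs_nonneg _)
      linarith
    have hM0 : 0 ≤ 6 * M * (LL n) ^ s₁ := by positivity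
    rw [← sq_abs (xi P0 α z - _)]
    exact pow_le_pow_left₀ hM0 hlow 2
  have hfin : (n : ℝ) * (6 * M * (LL n) ^ s₁) ^ 2 ≤ 34 * A' ^ 2 := by
    refine le_trans ?_ htw
    rw [← hcard, ← nsmul_eq_mul]
    exact Finset.card_nsmul_le_sum _ _ _ (fun α hα => by
      have := hterm α hα
      rwa [← hcard] at this)
  have hA'2 : A' ^ 2 = n * (M * (LL n) ^ s₁) ^ 2 := by
    rw [hA', mul_pow, mul_pow, Real.sq_sqrt hn0.le]; ring
  rw [hA'2] at hfin
  have hpos : 0 < (n:ℝ) * (M * (LL n) ^ s₁) ^ 2 := by positivity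
  nlinarith

end Pool.Agent.TH315.TWH
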