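import Pool.Agent.TH315.TWH.Space

/-!
Vectors and maps on the twisted Hilbert space.
-/

set_option autoImplicit false

open scoped ENNReal Classical

namespace Pool.Agent.TH315.TWH

variable (P : Par)

noncomputable def io : HS P →L[ℝ] XX P :=
  (Q P).comp (ContinuousLinearMap.inr ℝ (L1 P) (HS P))

lemma io_apply (x : HS P) : io P x = Q P (0, x) := rfl

lemma pr_io (x : HS P) : pr P (io P x) = 0 := by
  rw [io_apply, pr_Q]
  show synth (fun i : Ball P => i.1) (fun i => i.2) 0 = 0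
  simp

lemma eta_io (α : P.Γ) (x : HS P) : eta P α (io P x) = 0 := by
  rw [eta_apply, pr_io]; rfl

lemma xi_io (α : P.Γ) (x : HS P) : xi P α (io P x) = x α := by
  rw [io_apply, xi_Q]
  show x α + synth (fun i : Ball P => Fv P α (i.1 α)) (Fv_bound P α) 0 = x α
  simp

lemma norm_io_le (x : HS P) : ‖io P x‖ ≤ ‖x‖ := by
  refine (Q_norm P _).trans ?_
  simp

lemma io_inj : Function.Injective (io P) := by
  intro x y h
  apply lp.ext
  funext α
  have := congrArg (xi P α) h
  rwa [xi_io, xi_io] at this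

/-- the vector `t • (Ω y, y) + (x, 0)` -/
noncomputable def pt (y : Ball P) (t : ℝ) (x : HS P) : XX P := Q P (lp.single 1 y t, x)

lemma pr_pt (y : Ball P) (t : ℝ) (x : HS P) : pr P (pt P y t x) = t • y.1 := by
  rw [pt, pr_Q]
  exact synth_single (fun i : Ball P => i.1) (fun i => i.2) y t

lemma eta_pt (α : P.Γ) (y : Ball P) (t : ℝ) (x : HS P) : eta P α (pt P y t x) = t * y.1 α := by
  rw [eta_apply, pr_pt]; rfl

lemma xi_pt (α : P.Γ) (y : Ball P) (t : ℝ) (x : HS P) :
    xi P α (pt P y t x) = x α + t * Fv P α (y.1 α) := by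
  rw [pt, xi_Q]
  show x α + synth (fun i : Ball P => Fv P α (i.1 α)) (Fv_bound P α) (lp.single 1 y t) = _
  rw [synth_single]
  rfl

lemma norm_pt_le (y : Ball P) (t : ℝ) (x : HS P) : ‖pt P y t x‖ ≤ max |t| ‖x‖ := by
  refine (Q_norm P _).trans ?_
  rw [Prod.norm_def]
  have : ‖(lp.single 1 y t : L1 P)‖ = |t| := by
    rw [lp.norm_single (by simp)]; rfl
  simp only [this, le_refl]

/-- a bounded homogeneous section of `pr` -/
lemma exists_sec (y : HS P) : ∃ z : XX P, pr P z = y ∧ ‖z‖ ≤ ‖y‖ := by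
  rcases eq_or_ne y 0 with rfl | hy
  · exact ⟨0, by simp, by simp⟩
  have hy' : 0 < ‖y‖ := norm_pos_iff.mpr hy
  have hb : ‖‖y‖⁻¹ • y‖ ≤ 1 := by
    rw [norm_smul, norm_inv, norm_norm, inv_mul_cancel₀ hy'.ne']
  refine ⟨pt P ⟨‖y‖⁻¹ • y, hb⟩ ‖y‖ 0, ?_, ?_⟩
  · rw [pr_pt, smul_smul, mul_inv_cancel₀ hy'.ne', one_smul]
  · refine (norm_pt_le P _ _ _).trans ?_
    simp

lemma pr_surj : Function.Surjective (pr P) := fun y => by
  obtain ⟨z, hz, _⟩ := exists_sec P y
  exact ⟨z, hz⟩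

/-- kernel of `pr` is the range of `io` -/
lemma exists_io_of_pr {z : XX P} (hz : pr P z = 0) : ∃ x, io P x = z := by
  have heta : ∀ α, eta P α z = 0 := fun α => by rw [eta_apply, hz]; rfl
  have hmem : Memℓp (fun α => xi P α z) 2 := by
    refine memℓp_gen' (C := 34 * (‖z‖ + 1) ^ 2) (fun s => ?_)
    have := twist P z (lt_add_one ‖z‖) s
    simp only [heta, zero_mul, sub_zero] at this
    simpa using this
  refine ⟨⟨fun α => xi P α z, hmem⟩, ?_⟩
  apply ext_XX
  · intro α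
    rw [eta_io, heta]
  · intro α
    rw [xi_io]

/-- unit vector in `ℓ²` -/
noncomputable def uv (β : P.Γ) : HS P := lp.single 2 β 1

lemma norm_uv (β : P.Γ) : ‖uv P β‖ = 1 := by
  rw [uv, lp.norm_single (by norm_num)]; simp

lemma uv_apply (α β : P.Γ) : uv P β α = if α = β then 1 else 0 := by
  rw [uv, lp.single_apply]
  rcases eq_or_ne α β with h | h
  · subst h; simp
  · simp [h]

lemma single_eq (β : P.Γ) (t : ℝ) : (lp.single 2 β t : HS P) = t • uv P β := by
  apply lp.ext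
  funext α
  rw [lp.coeFn_smul, Pi.smul_apply, uv_apply, lp.single_apply]
  rcases eq_or_ne α β with h | h
  · subst h; simp
  · simp [h]

lemma norm_sum_uv (c : P.Γ → ℝ) (s : Finset P.Γ) :
    ‖∑ β ∈ s, c β • uv P β‖ ^ 2 = ∑ β ∈ s, (c β) ^ 2 := by
  have := lp.norm_sum_single (p := 2) (E := fun _ : P.Γ => ℝ) (by norm_num) c s
  simp only [ENNReal.toReal_ofNat, Real.rpow_ofNat, Real.norm_eq_abs, sq_abs] at this
  rw [← this]
  simp only [single_eq]

lemma sum_uv_apply (c : P.Γ → ℝ) (s : Finset P.Γ) (α : P.Γ) :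
    (∑ β ∈ s, c β • uv P β) α = if α ∈ s then c α else 0 := by
  have : (∑ β ∈ s, c β • uv P β) α = ev α (∑ β ∈ s, c β • uv P β) := rfl
  rw [this, map_sum]
  simp only [map_smul, ev_apply, uv_apply, smul_eq_mul, mul_ite, mul_one, mul_zero]
  rw [Finset.sum_ite_eq]

noncomputable def ee (β : P.Γ) : XX P := io P (uv P β)

noncomputable def ff (β : P.Γ) : XX P := pt P ⟨uv P β, (norm_uv P β).le⟩ 1 0

lemma eta_ee (α β : P.Γ) : eta P α (ee P β) = 0 := eta_io P α _

lemma xi_ee (α β : P.Γ) : xi P α (ee P β) = if α = β then 1 else 0 := by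
  rw [ee, xi_io, uv_apply]

lemma pr_ff (β : P.Γ) : pr P (ff P β) = uv P β := by
  rw [ff, pr_pt, one_smul]

lemma eta_ff (α β : P.Γ) : eta P α (ff P β) = if α = β then 1 else 0 := by
  rw [eta_apply, pr_ff, uv_apply]

lemma xi_ff (α β : P.Γ) : xi P α (ff P β) = 0 := by
  rw [ff, xi_pt]
  show (0 : HS P) α + 1 * Fv P α (uv P β α) = 0
  rw [uv_apply]
  rcases eq_or_ne α β with h | h
  · subst h
    simp [Fv, (P.h α).1]
  · simp [Fv, h]

lemma norm_ee (β : P.Γ) : ‖ee P β‖ ≤ 1 := (norm_io_le P _).trans (norm_uv P β).le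

lemma norm_ff (β : P.Γ) : ‖ff P β‖ ≤ 1 := by
  refine (norm_pt_le P _ _ _).trans ?_
  simp

lemma flat_ee (s : Finset P.Γ) : ‖∑ β ∈ s, ee P β‖ ≤ Real.sqrt s.card := by
  have h1 : ∑ β ∈ s, ee P β = io P (∑ β ∈ s, (1:ℝ) • uv P β) := by
    rw [map_sum]
    simp [ee]
  rw [h1]
  refine (norm_io_le P _).trans ?_
  apply Real.le_sqrt_of_sq_le
  rw [norm_sum_uv (c := fun _ => 1)]
  simp

lemma flat_ff (s : Finset P.Γ) {B : ℝ} (hB1 : 1 ≤ B)
    (hB : ∀ β ∈ s, |P.φ β (Real.log (1 / Real.sqrt s.card))| ≤ B) :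
    ‖∑ β ∈ s, ff P β‖ ≤ Real.sqrt s.card * B := by
  rcases s.eq_empty_or_nonempty with rfl | hne
  · simp
  have hn : 0 < (s.card : ℝ) := by exact_mod_cast hne.card_pos
  set r := Real.sqrt s.card with hr
  have hr0 : 0 < r := Real.sqrt_pos.mpr hn
  have hr2 : r ^ 2 = s.card := Real.sq_sqrt hn.le
  set y0 : HS P := ∑ β ∈ s, (1 / r : ℝ) • uv P β with hy0
  have hy0n : ‖y0‖ ≤ 1 := by
    have h1 : ‖y0‖ ^ 2 = 1 := by
      rw [hy0, norm_sum_uv (c := fun _ => 1 / r)]
      simp only [Finset.sum_const, nsmul_eq_mul, div_pow, one_pow]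
      rw [hr2]; field_simp
    nlinarith [norm_nonneg y0]
  have hy0a : ∀ α, y0 α = if α ∈ s then 1 / r else 0 := fun α => by
    rw [hy0, sum_uv_apply (c := fun _ => 1 / r)]
  set x0 : HS P := ∑ β ∈ s, (-(P.φ β (Real.log (1 / r)))) • uv P β with hx0
  have hx0a : ∀ α, x0 α = if α ∈ s then -(P.φ α (Real.log (1 / r))) else 0 := fun α => by
    rw [hx0, sum_uv_apply (c := fun β => -(P.φ β (Real.log (1 / r))))]
  have hx0n : ‖x0‖ ≤ r * B := by
    have h1 : ‖x0‖ ^ 2 ≤ (r * B) ^ 2 := by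
      rw [hx0, norm_sum_uv (c := fun β => -(P.φ β (Real.log (1 / r)))), mul_pow, hr2]
      calc ∑ β ∈ s, (-(P.φ β (Real.log (1 / r)))) ^ 2 ≤ ∑ _β ∈ s, B ^ 2 := by
            refine Finset.sum_le_sum fun β hβ => ?_
            rw [neg_sq, ← sq_abs]
            exact pow_le_pow_left₀ (abs_nonneg _) (hB β hβ) 2
        _ = s.card * B ^ 2 := by simp
    exact (sq_le_sq₀ (norm_nonneg _) (by positivity)).1 h1
  have key : ∑ β ∈ s, ff P β = pt P ⟨y0, hy0n⟩ r x0 := by
    apply ext_XX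
    · intro α
      rw [map_sum, eta_pt]
      simp only [eta_ff]
      rw [Finset.sum_ite_eq, hy0a]
      split_ifs
      · field_simp
      · simp
    · intro α
      rw [map_sum, xi_pt]
      simp only [xi_ff, Finset.sum_const_zero]
      rw [hx0a]
      show 0 = _ + r * Fv P α (y0 α)
      rw [hy0a]
      split_ifs
      · have : |1 / r| = 1 / r := abs_of_pos (by positivity)
        rw [Fv, this]
        field_simp
        ring
      · simp [Fv]
  rw [key]
  refine (norm_pt_le P _ _ _).trans (max_le ?_ hx0n)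
  rw [abs_of_pos hr0]
  nlinarith

/-- functionals vanishing on all `ee` -/
lemma vanish_io (g : XX P →L[ℝ] ℝ) (hg : ∀ β, g (ee P β) = 0) (x : HS P) : g (io P x) = 0 := by
  have h1 : HasSum (fun β => (lp.single 2 β (x β) : HS P)) x := lp.hasSum_single (by norm_num) x
  have h2 := h1.mapL (g.comp (io P))
  have h3 : (fun β => (g.comp (io P)) (lp.single 2 β (x β))) = fun _ => 0 := by
    funext β
    rw [single_eq, map_smul]
    show x β • g (ee P β) = 0
    rw [hg, smul_zero]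
  rw [h3] at h2
  exact (h2.unique hasSum_zero)

lemma vanish_ker (g : XX P →L[ℝ] ℝ) (hg : ∀ β, g (ee P β) = 0) {z w : XX P}
    (h : pr P z = pr P w) : g z = g w := by
  have h1 : pr P (z - w) = 0 := by rw [map_sub, h, sub_self]
  obtain ⟨x, hx⟩ := exists_io_of_pr P h1
  have h2 := vanish_io P g hg x
  rw [hx, map_sub, sub_eq_zero] at h2
  exact h2

lemma expansion (g : XX P →L[ℝ] ℝ) (hg : ∀ β, g (ee P β) = 0) (z : XX P) :
    HasSum (fun β => eta P β z * g (ff P β)) (g z) := by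
  choose sec hsec hsecn using exists_sec P
  let gh : HS P →L[ℝ] ℝ := LinearMap.mkContinuous
    { toFun := fun y => g (sec y)
      map_add' := fun y y' => by
        rw [← map_add]
        exact vanish_ker P g hg (by rw [map_add, hsec, hsec, hsec])
      map_smul' := fun c y => by
        rw [RingHom.id_apply, ← map_smul]
        exact vanish_ker P g hg (by rw [map_smul, hsec, hsec]) } ‖g‖ (fun y => by
          refine (g.le_opNorm _).trans ?_
          exact mul_le_mul_of_nonneg_left (hsecn y) (norm_nonneg _))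
  have hgh : ∀ w, gh (pr P w) = g w := fun w =>
    vanish_ker P g hg (hsec _)
  have h1 : HasSum (fun β => (lp.single 2 β (pr P z β) : HS P)) (pr P z) :=
    lp.hasSum_single (by norm_num) _
  have h2 := h1.mapL gh
  rw [hgh] at h2
  have h3 : (fun β => gh (lp.single 2 β (pr P z β))) = fun β => eta P β z * g (ff P β) := by
    funext β
    rw [single_eq, map_smul, ← pr_ff, hgh]
    rfl
  rw [h3] at h2
  exact h2

end Pool.Agent.TH315.TWH
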